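import Pool.Agent.H.MP_41c62e_nt.B

set_option autoImplicit false

namespace Pool.Agent.H.MP_d09e6d_nt

open Set Metric Filter Topology MeasureTheory
open scoped ENNReal NNReal
open Pool.Agent.H.MP_41c62e_nt

def DS (A : Set ℕ) : Set ℝ :=
  {s | 0 ≤ s ∧ ∃ B ⊆ A, B.Nonempty ∧ dimH (J B) = ENNReal.ofReal s}

def M (q : ℕ) : Set ℕ := {a | ∃ n, 1 ≤ n ∧ a = n ^ q}

theorem M_gap {q : ℕ} (hq : 2 ≤ q) : Gap (M q) := by
  constructor
  · rintro _ ⟨n, hn, rfl⟩
    exact Nat.one_le_pow _ _ hn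
  · rintro _ ⟨n, hn, rfl⟩ _ ⟨m, -, rfl⟩ h
    have h1 : n + 1 ≤ m := lt_of_pow_lt_pow_left₀ q (by positivity) h
    obtain ⟨r, rfl⟩ := Nat.exists_eq_add_of_le hq
    have h2 := Nat.pow_le_pow_left h1 (2 + r)
    have h3 := Nat.pow_le_pow_left (Nat.le_succ n) r
    have h4 := Nat.one_le_pow r n hn
    rw [pow_add] at h2 ⊢
    nlinarith [Nat.mul_le_mul_left ((n + 1) ^ 2) h3]

theorem sq_sum : ∑' m : ℕ, ENNReal.ofReal ((1 / ((m : ℝ) + 2)) ^ 2) ≤ 1 := by
  refine ENNReal.tsum_le_of_sum_range_le fun n => ?_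
  rw [← ENNReal.ofReal_sum_of_nonneg fun _ _ => by positivity, ENNReal.ofReal_le_one]
  have : ∑ m ∈ Finset.range n, (1 / ((m : ℝ) + 2)) ^ 2 ≤ (1 : ℝ) - 1 / ((n : ℝ) + 1) := by
    induction n with
    | zero => simp
    | succ n ih =>
      rw [Finset.sum_range_succ]
      have : (1 / ((n : ℝ) + 2)) ^ 2 ≤ 1 / (n + 1) - 1 / (n + 1 + 1) := by
        rw [div_sub_div _ _ (by positivity) (by positivity), div_pow,
          div_le_div_iff₀ (by positivity) (by positivity)]
        nlinarith [Nat.cast_nonneg (α := ℝ) n]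
      push_cast; linarith
  have h : (0 : ℝ) ≤ 1 / (n + 1) := by positivity
  linarith

theorem pw (n q : ℕ) (t : ℝ) : (1 / ((n ^ q : ℕ) : ℝ)) ^ (2 * t) = (1 / (n : ℝ)) ^ (q * (2 * t)) := by
  rw [Nat.cast_pow, ← one_div_pow, Real.rpow_mul (x := 1 / (n : ℝ)) (by positivity),
    Real.rpow_natCast]

def F (q k : ℕ) : Set ℕ := (fun n => n ^ q) '' Icc 1 k

theorem F_sub (q k : ℕ) : F q k ⊆ M q := by rintro _ ⟨n, hn, rfl⟩; exact ⟨n, hn.1, rfl⟩

theorem fin (A : Set ℕ) : dimH (J A) ≠ ⊤ := ne_top_of_le_ne_top ENNReal.one_ne_top (J_le A)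

theorem strict {q k : ℕ} (hq : 2 ≤ q) {σ0 : ℝ} (h2 : 2 ≤ σ0)
    (hσ : ∀ σ, σ0 ≤ σ → 8192 * ((k : ℝ) + 2) ^ 2 * ((k + 1) / (k + 2)) ^ σ ≤ 1)
    (hν : σ0 / (2 * q) < (dimH (J (F q (k + 1)))).toReal) :
    dimH (J (M q \ {(k + 1) ^ q})) < dimH (J (F q (k + 1))) := by
  set ν := (dimH (J (F q (k + 1)))).toReal with hν'
  have q0 : (2 : ℝ) ≤ q := by exact_mod_cast hq
  have ν1 : ν ≤ 1 := ENNReal.toReal_le_of_le_ofReal zero_le_one (by simpa using J_le _)
  have s0 : 0 < σ0 / (2 * q) := by positivity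
  set m : ℝ := (((k + 1) ^ q : ℕ) : ℝ) with hm
  have m1 : 1 ≤ m := by rw [hm]; exact_mod_cast Nat.one_le_pow _ _ (Nat.succ_pos k)
  obtain ⟨η, ⟨e1, e2⟩, e0⟩ : ∃ η : ℝ, ((m + 1) ^ (2 * η) < 1 + (1 / m) ^ (4 : ℝ) / 512 ∧
      η < ν - σ0 / (2 * q)) ∧ 0 < η := by
    have c1 : ContinuousAt (fun η : ℝ => (m + 1) ^ (2 * η)) 0 :=
      ((Real.continuous_const_rpow (by positivity)).comp (by fun_prop)).continuousAt
    have c2 := (c1.eventually_lt (continuousAt_const (y := 1 + (1 / m) ^ (4 : ℝ) / 512))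
      (by simp; positivity)).and (eventually_lt_nhds (sub_pos.2 hν))
    exact ((c2.filter_mono (nhdsWithin_le_nhds (s := Ioi 0))).and self_mem_nhdsWithin).exists
  have g := M_gap hq
  obtain ⟨h, a1, a2, a3⟩ := exists_h ((finite_Icc 1 (k + 1)).image _) (g.mono (F_sub q (k + 1)))
    (t := ν + η / 2) (δ := η / 4) (by linarith) (by linarith) (by linarith) (by
      rw [← ENNReal.ofReal_toReal (fin _), ENNReal.ofReal_lt_ofReal_iff (by linarith)]
      show ν < _
      linarith)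
  set t := ν - η / 2 with ht
  have t0 : σ0 / (2 * q) ≤ t := by linarith
  refine lt_of_le_of_lt (superh (t := t) (fun a ha => g.1 a ha.1) (by linarith) h
    (fun x hx => a1 x hx ▸ le_add_self) (fun x hx => ?_)
    (ne_top_of_le_ne_top ENNReal.ofReal_ne_top (a2 0 (by simp)))) (by
      rw [← ENNReal.ofReal_toReal (fin (F q (k + 1))), ENNReal.ofReal_lt_ofReal_iff (by linarith)]
      linarith)
  have inj : Function.Injective fun n : ℕ => n ^ q := Nat.pow_left_injective (by omega)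
  have d1 : M q \ {(k + 1) ^ q} = F q k ∪ range fun j => (j + k + 2) ^ q := by
    ext a
    constructor
    · rintro ⟨⟨n, hn, rfl⟩, h⟩
      rcases lt_trichotomy n (k + 1) with h1 | rfl | h1
      · exact Or.inl ⟨n, ⟨hn, by omega⟩, rfl⟩
      · exact absurd rfl h
      · exact Or.inr ⟨n - (k + 2), by simp only; congr 1; omega⟩
    · rintro (⟨n, hn, rfl⟩ | ⟨n, rfl⟩)
      · exact ⟨⟨n, hn.1, rfl⟩, fun e => by have := inj e; have := hn.2; omega⟩
      · exact ⟨⟨n + k + 2, by omega, rfl⟩, fun e => by have := inj e; omega⟩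
  have d2 : F q (k + 1) = F q k ∪ {(k + 1) ^ q} := by
    rw [F, F, ← image_singleton (f := fun n => n ^ q), ← image_union]
    congr 1
    ext n; simp only [mem_Icc, mem_union, mem_singleton_iff]; omega
  have d3 : Disjoint (F q k) {(k + 1) ^ q} := by
    rw [disjoint_singleton_right]
    rintro ⟨n, hn, e⟩
    have := inj e; have := hn.2; omega
  have hx0 := hx.1
  have hx1 := hx.2
  have b1 : L (F q k) t h x ≤ ENNReal.ofReal ((m + 1) ^ (2 * η)) * L (F q k) (ν + η / 2) h x := by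
    rw [L, L, ← ENNReal.tsum_mul_left]
    refine ENNReal.tsum_le_tsum fun a => ?_
    rw [← mul_assoc, ← ENNReal.ofReal_mul (by positivity)]
    refine mul_le_mul_left (ENNReal.ofReal_le_ofReal ?_) _
    have c1 : (1 : ℝ) ≤ (a : ℕ) := by exact_mod_cast g.1 _ (F_sub _ _ a.2)
    have c2 : ((a : ℕ) : ℝ) ≤ m := by
      obtain ⟨n, hn, e⟩ := a.2
      rw [← e, hm]; exact_mod_cast Nat.pow_le_pow_left (by have := hn.2; omega) q
    have e : (1 / ((a : ℕ) + x)) ^ (2 * t) = ((a : ℕ) + x) ^ (2 * η) *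
        (1 / ((a : ℕ) + x)) ^ (2 * (ν + η / 2)) := by
      rw [one_div, Real.inv_rpow (by linarith), Real.inv_rpow (by linarith),
        show 2 * (ν + η / 2) = 2 * η + 2 * t by rw [ht]; ring, Real.rpow_add (by linarith)]
      have : 0 < ((a : ℕ) + x) ^ (2 * η) := by positivity
      field_simp
    rw [e]
    gcongr
  set c := (1 / (m + 1)) ^ (2 * (ν + η / 2)) / 16 with hc
  have c0 : 0 ≤ c := by positivity
  have b2 : L (F q k) (ν + η / 2) h x + ENNReal.ofReal c * h x ≤ h x := by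
    refine le_trans ?_ (le_self_add.trans (a1 x hx).le)
    change _ ≤ L (F q (k + 1)) _ _ _
    rw [d2, L, L, (ENNReal.summable).tsum_union_disjoint (f := fun a : ℕ =>
      ENNReal.ofReal ((1 / (a + x)) ^ (2 * (ν + η / 2))) * h (1 / (a + x))) d3 ENNReal.summable,
      tsum_singleton _ (fun a : ℕ =>
      ENNReal.ofReal ((1 / (a + x)) ^ (2 * (ν + η / 2))) * h (1 / (a + x)))]
    have y := one_div_mem (Nat.one_le_pow q _ (Nat.succ_pos k)) hx
    refine add_le_add_right ((mul_le_mul_right (a3 x hx _ ⟨y.1.le, y.2⟩) _).trans ?_) _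
    rw [← mul_assoc, ← ENNReal.ofReal_ofNat, ← ENNReal.ofReal_mul c0, hc,
      div_mul_cancel₀ _ (by norm_num)]
    refine mul_le_mul_left (ENNReal.ofReal_le_ofReal ?_) _
    rw [← hm]
    gcongr
  have hfin : h x ≠ ⊤ := ne_top_of_le_ne_top ENNReal.ofReal_ne_top (a2 x hx)
  have b3 : L (F q k) (ν + η / 2) h x ≤ ENNReal.ofReal (1 - c) * h x := by
    rw [ENNReal.ofReal_sub _ c0, ENNReal.sub_mul fun _ _ => hfin, ENNReal.ofReal_one, one_mul]
    exact ENNReal.le_sub_of_add_le_right (ENNReal.mul_ne_top ENNReal.ofReal_ne_top hfin) b2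
  set κ := (1 / m) ^ (2 * t) with hκ
  have κ0 : 0 < κ := by positivity
  have b4 : ∑' j : ℕ, ENNReal.ofReal ((1 / (((j + k + 2) ^ q : ℕ) : ℝ)) ^ (2 * t)) ≤
      ENNReal.ofReal (κ / 8192) := by
    refine le_trans ?_ (mul_le_of_le_one_right' sq_sum)
    rw [← ENNReal.tsum_mul_left]
    refine ENNReal.tsum_le_tsum fun j => ?_
    rw [← ENNReal.ofReal_mul (by positivity), hκ, hm, pw, pw]
    refine ENNReal.ofReal_le_ofReal ?_
    have σ1 : σ0 ≤ q * (2 * t) := by rw [div_le_iff₀ (by positivity)] at t0; linarith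
    have σ2 := hσ _ σ1
    generalize q * (2 * t) = σ at *
    have k0 : (0 : ℝ) ≤ k := by positivity
    have j0 : (0 : ℝ) ≤ j := by positivity
    push_cast
    have e : (1 / ((k : ℝ) + 2)) ^ (σ - 2) = (k + 2) ^ 2 * ((k + 1) / (k + 2)) ^ σ *
        (1 / (k + 1)) ^ σ := by
      rw [mul_assoc, ← Real.mul_rpow (by positivity) (by positivity),
        Real.rpow_sub (by positivity), Real.rpow_two]
      field_simp
    calc (1 / ((j : ℝ) + k + 2)) ^ σ = (1 / ((j : ℝ) + k + 2)) ^ (σ - 2) *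
          (1 / ((j : ℝ) + k + 2)) ^ 2 := by
          rw [← Real.rpow_two, ← Real.rpow_add (by positivity)]; ring_nf
      _ ≤ (1 / ((k : ℝ) + 2)) ^ (σ - 2) * (1 / ((j : ℝ) + 2)) ^ 2 := by
          have : 0 ≤ σ - 2 := by linarith
          gcongr <;> linarith
      _ ≤ _ := by
          rw [e]
          have : 0 < (1 / ((k : ℝ) + 1)) ^ σ := by positivity
          gcongr
          nlinarith
  have b5 := (L_tail (T := range fun j => (j + k + 2) ^ q) (by
    rintro _ ⟨j, rfl⟩; exact Nat.one_le_pow _ _ (by omega)) _ Subset.rfl (t := t) (by linarith) h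
    (16 * h x) (fun y hy => a3 y hy x hx) hx).trans (mul_le_mul_left b4 _)
  rw [d1]
  refine (L_union _ _ _ _ _).trans ((add_le_add (b1.trans (mul_le_mul_right b3 _)) b5).trans ?_)
  rw [← mul_assoc, ← mul_assoc, ← add_mul, ← ENNReal.ofReal_ofNat,
    ← ENNReal.ofReal_mul (by positivity), ← ENNReal.ofReal_mul (by positivity)]
  have m2 : 1 / (m + 1) ≤ 1 := by rw [div_le_one] <;> linarith
  have c1 : c ≤ 1 := by
    have := Real.rpow_le_one (by positivity) m2 (by linarith : 0 ≤ 2 * (ν + η / 2))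
    rw [hc]; linarith
  have c2 : 0 ≤ 1 - c := by linarith
  refine mul_le_of_le_one_left' ?_
  rw [← ENNReal.ofReal_add (by positivity) (by positivity), ENNReal.ofReal_le_one]
  have f1 : (m + 1) ^ (2 * η) * c = (1 / (m + 1)) ^ (2 * t) / 16 := by
    rw [hc, one_div, Real.inv_rpow (by linarith), Real.inv_rpow (by linarith),
      show 2 * (ν + η / 2) = 2 * η + 2 * t by rw [ht]; ring, Real.rpow_add (by linarith)]
    have : 0 < (m + 1) ^ (2 * η) := by positivity
    field_simp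
  have f2 : κ / 16 ≤ (1 / (m + 1)) ^ (2 * t) := by
    calc κ / 16 = (1 / 2) ^ (4 : ℝ) * κ := by norm_num; ring
      _ ≤ (1 / 2) ^ (2 * t) * κ := by
          gcongr ?_ * _
          exact Real.rpow_le_rpow_of_exponent_ge (by norm_num) (by norm_num) (by linarith)
      _ = (1 / (2 * m)) ^ (2 * t) := by
          rw [hκ, ← Real.mul_rpow (by positivity) (by positivity), one_div_mul_one_div]
      _ ≤ _ := by
          have : 0 ≤ 2 * t := by linarith
          gcongr; linarith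
  have f3 : (1 / m) ^ (4 : ℝ) ≤ κ := Real.rpow_le_rpow_of_exponent_ge (by positivity)
    (by rw [div_le_one] <;> linarith) (by linarith)
  rw [mul_sub, f1]
  linarith

theorem F_mono (q : ℕ) {j k : ℕ} (h : j ≤ k) : F q j ⊆ F q k := image_mono (Icc_subset_Icc_right h)

theorem F_sub' {q j k : ℕ} (hq : 2 ≤ q) (h : j < k) : F q j ⊆ M q \ {k ^ q} := by
  rintro _ ⟨n, hn, rfl⟩
  refine ⟨⟨n, hn.1, rfl⟩, fun e => ?_⟩
  have := Nat.pow_left_injective (by omega : q ≠ 0) e
  have := hn.2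
  omega

theorem no_one {q : ℕ} (hq : 2 ≤ q) : dimH (J (M q \ {1 ^ q})) ≤ ENNReal.ofReal (1 / q) := by
  have g := M_gap hq
  refine superh (fun a ha => g.1 a ha.1) (by positivity) (fun _ => 1) (fun _ _ => le_rfl)
    (fun x hx => ?_) ENNReal.one_ne_top
  refine (L_tail (fun a ha => g.1 a ha.1) (fun j => (j + 2) ^ q) ?_ (by positivity) _ 1
    (fun _ _ => le_rfl) hx).trans ?_
  · rintro _ ⟨⟨n, hn, rfl⟩, h⟩
    have : n ≠ 1 := by rintro rfl; exact h rfl
    exact ⟨n - 2, by simp only; congr 1; omega⟩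
  · rw [mul_one]
    refine le_trans (le_of_eq (tsum_congr fun j => ?_)) sq_sum
    have : (q : ℝ) ≠ 0 := by positivity
    rw [pw, show (q : ℝ) * (2 * (1 / q)) = 2 by field_simp, Real.rpow_two]
    push_cast; rfl

theorem two_low (σ : ℝ) :
    ∀ᶠ q : ℕ in atTop, ENNReal.ofReal (σ / (2 * q)) ≤ dimH (J (F q 2)) := by
  have t1 : Tendsto (fun q : ℕ => (4 : ℝ) ^ (σ / 2 / q)) atTop (𝓝 (4 ^ (0 : ℝ))) :=
    ((Real.continuous_const_rpow (by norm_num)).tendsto 0).comp
      (tendsto_const_div_atTop_nhds_zero_nat _)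
  filter_upwards [t1.eventually (gt_mem_nhds (show (4 : ℝ) ^ (0 : ℝ) < 1 + (1 / 2) ^ σ by
    simp; positivity)), eventually_ge_atTop 2] with q h1 hq
  by_contra hc
  have g := (M_gap hq).mono (F_sub q 2)
  have h2 := Z_le (F := F q 2) ((finite_Icc 1 2).image _) g (not_le.1 hc) 1
  rw [Z_eq g.1 _ (by simp), Function.iterate_one, L] at h2
  have h3 := (ENNReal.sum_le_tsum {⟨1 ^ q, 1, by simp, rfl⟩, ⟨2 ^ q, 2, by simp, rfl⟩}).trans h2
  have : (q : ℝ) ≠ 0 := by positivity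
  rw [Finset.sum_pair (fun e => by
    have := Nat.pow_left_injective (by omega : q ≠ 0) (Subtype.mk.inj e); omega)] at h3
  simp only [add_zero, mul_one, pw] at h3
  rw [← ENNReal.ofReal_add (by positivity) (by positivity),
    ENNReal.ofReal_le_ofReal_iff (by positivity),
    show (q : ℝ) * (2 * (σ / (2 * q))) = σ by field_simp, ← div_div] at h3
  simp only [Nat.cast_one, div_one, Real.one_rpow, Nat.cast_ofNat] at h3
  linarith

theorem main (C : ℕ) : ∃ q0 : ℕ, ∀ q, q0 ≤ q →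
    (C : ℕ∞) < ENat.card (ConnectedComponents (DS (M q))) := by
  have h1 : ∀ᶠ σ : ℝ in atTop, ∀ k ∈ Finset.range (C + 3),
      8192 * ((k : ℝ) + 2) ^ 2 * ((k + 1) / (k + 2)) ^ σ ≤ 1 := by
    rw [eventually_all_finset]
    intro k _
    have k0 : (0 : ℝ) ≤ k := by positivity
    have := (tendsto_rpow_atTop_of_base_lt_one ((k + 1) / (k + 2) : ℝ)
      (lt_trans (by norm_num) (by positivity : (0 : ℝ) < _))
      (by rw [div_lt_one] <;> linarith)).const_mul (8192 * ((k : ℝ) + 2) ^ 2)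
    rw [mul_zero] at this
    exact this.eventually (ge_mem_nhds one_pos)
  obtain ⟨σ1, h2⟩ := eventually_atTop.1 h1
  set σ0 := max σ1 2 with hσ0
  have s2 : 2 ≤ σ0 := le_max_right _ _
  refine eventually_atTop.1 ?_
  filter_upwards [two_low (σ0 + 1), eventually_ge_atTop 2] with q hlow hq
  have q0 : (2 : ℝ) ≤ q := by exact_mod_cast hq
  have st : ∀ k, 1 ≤ k → k < C + 3 → dimH (J (M q \ {(k + 1) ^ q})) < dimH (J (F q (k + 1))) := by
    intro k k1 k2
    refine strict hq s2 (fun σ hσ => h2 σ ((le_max_left _ _).trans hσ) k (by simpa using k2)) ?_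
    refine lt_of_lt_of_le ?_ ((ENNReal.ofReal_le_iff_le_toReal (fin _)).1
      (hlow.trans (J_mono (F_mono q (by omega)))))
    gcongr; linarith
  have dich : ∀ k, 2 ≤ k → k < C + 3 → ∀ B ⊆ M q, dimH (J B) ≤ dimH (J (M q \ {(k + 1) ^ q})) ∨
      dimH (J (F q (k + 1))) ≤ dimH (J B) := by
    intro k k1 k2 B hB
    by_cases h : F q (k + 1) ⊆ B
    · exact Or.inr (J_mono h)
    obtain ⟨_, ⟨n, ⟨n1, n2⟩, rfl⟩, hn⟩ := not_subset.1 h
    refine Or.inl ((J_mono (B := M q \ {n ^ q}) fun a ha => ⟨hB ha, fun e => hn (by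
      rw [mem_singleton_iff.1 e] at ha; exact ha)⟩).trans ?_)
    rcases n1.eq_or_lt with rfl | n1
    · refine (no_one hq).trans (le_trans (ENNReal.ofReal_le_ofReal ?_)
        (hlow.trans (J_mono (F_sub' hq (by omega)))))
      rw [div_le_div_iff₀ (by positivity) (by positivity)]; nlinarith
    rcases n2.eq_or_lt with rfl | n2
    · rfl
    obtain ⟨j, rfl⟩ : ∃ j, n = j + 1 := ⟨n - 1, by omega⟩
    exact (st j (by omega) (by omega)).le.trans (J_mono (F_sub' hq n2))
  have mem : ∀ k, (dimH (J (F q (k + 2)))).toReal ∈ DS (M q) := fun k =>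
    ⟨ENNReal.toReal_nonneg, _, F_sub q _, ⟨1 ^ q, 1, by simp, rfl⟩,
      (ENNReal.ofReal_toReal (fin _)).symm⟩
  have key : ∀ i j : Fin (C + 1), i < j →
      ConnectedComponents.mk (⟨_, mem i⟩ : DS (M q)) ≠ ConnectedComponents.mk ⟨_, mem j⟩ := by
    intro i j hij e
    have e1 := ConnectedComponents.coe_eq_coe'.1 e
    have pc := ((isPreconnected_connectedComponent (x := (⟨_, mem j⟩ : DS (M q)))).image _
      continuous_subtype_val.continuousOn).ordConnected
    have hij' : (i : ℕ) < j := hij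
    have a1 := st (j + 1) (by omega) (by omega)
    have a2 : dimH (J (F q (i + 2))) ≤ dimH (J (M q \ {((j : ℕ) + 1 + 1) ^ q})) :=
      J_mono (F_sub' hq (by omega))
    obtain ⟨r, r0, r1, r2⟩ := ENNReal.lt_iff_exists_real_btwn.1 a1
    have := pc.out ⟨_, e1, rfl⟩ ⟨_, mem_connectedComponent, rfl⟩ (x := _) (y := _)
      (show r ∈ Icc _ _ from ⟨ENNReal.toReal_le_of_le_ofReal r0 (a2.trans r1.le),
        (ENNReal.ofReal_le_iff_le_toReal (fin _)).1 r2.le⟩)
    obtain ⟨w, -, e3⟩ := this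
    obtain ⟨-, B, hB, -, e2⟩ := w.2
    rw [e3] at e2
    rcases dich (j + 1) (by omega) (by omega) B hB with h | h
    · exact absurd (e2 ▸ h) (not_le.2 r1)
    · exact absurd (e2 ▸ h) (not_le.2 r2)
  have inj : Function.Injective fun i : Fin (C + 1) =>
      ConnectedComponents.mk (⟨_, mem i⟩ : DS (M q)) := by
    intro i j e
    rcases lt_trichotomy i j with h | h | h
    · exact absurd e (key i j h)
    · exact h
    · exact absurd e.symm (key j i h)
  refine lt_of_lt_of_le ?_ (ENat.card_le_card_of_injective inj)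
  simp only [ENat.card_eq_coe_fintype_card, Fintype.card_fin]
  exact_mod_cast Nat.lt_succ_self C

end Pool.Agent.H.MP_d09e6d_nt
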